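import Mathlib
import Pool.Agent.Helper25.Const
import Pool.Agent.Helper27.TripAP.Main

/-!
# Prime triplets are not uniformly distributed in arithmetic progressions

For every `A` the Hardy-Littlewood asymptotic formula for prime triplets fails, at every large
scale, for some progression with modulus at most `y / (log y) ^ A`.
-/

set_option autoImplicit false

namespace Pool.Agent.Results.MP_c0d11e_nt.ProgressionIrregularity

open Finset Filter Pool.Agent.Helper27.TripAP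

/-- Here `trip u y q a` is the number of `n ≤ y` with `n ≡ a (mod q)` such that `n`, `n + u`,
`n + 6` are all prime, and `hl D u y q` is its Hardy-Littlewood prediction. -/
theorem result : ∃ D : ℝ,
    Tendsto (fun K : ℕ => (9 / 2 : ℝ) * ∏ p ∈ (range K).filter (fun p => p.Prime ∧ 3 < p),
      ((p : ℝ) ^ 2 * ((p : ℝ) - 3) / ((p : ℝ) - 1) ^ 3)) atTop (nhds D) ∧
    ∀ A : ℕ, ∃ c : ℝ, 0 < c ∧ ∃ x₀ : ℕ, ∀ x : ℕ, x₀ ≤ x → ∀ u : ℕ, (u = 2 ∨ u = 4) →
      ∃ y q a : ℕ, x ≤ 16 * y ∧ y ≤ x ∧ 1 ≤ q ∧ (q : ℝ) * Real.log y ^ A ≤ y ∧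
        Nat.Coprime (a * (a + u) * (a + 6)) q ∧
        c * hl D u y q ≤ |(trip u y q a : ℝ) - hl D u y q| := by
  obtain ⟨D, hD, hD2⟩ := Pool.Agent.Helper25.exists_D
  refine ⟨D, hD, fun A => ?_⟩
  obtain ⟨c, hc, x₀, H⟩ := main A
  refine ⟨c, hc, x₀, fun x hx u hu => ?_⟩
  have h := H x hx D (by linarith) u hu
  unfold Good at h
  push Not at h
  obtain ⟨y, q, a, h1, h2, h3, h4, h5, h6⟩ := h
  exact ⟨y, q, a, h1, h2, h3, h4, h5, h6⟩

end Pool.Agent.Results.MP_c0d11e_nt.ProgressionIrregularity
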