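import Mathlib
import Pool.Agent.Helper25.Small

set_option autoImplicit false

namespace Pool.Agent.Results.MP_c0d11e_nt.ShortIntervals

open Finset Filter

/-- Explicit Brun-Titchmarsh bound for both kinds of prime triplets, in every interval. -/
theorem result : ∃ D : ℝ,
    Tendsto (fun K : ℕ => (9 / 2 : ℝ) * ∏ p ∈ (range K).filter (fun p => p.Prime ∧ 3 < p),
      ((p : ℝ) ^ 2 * ((p : ℝ) - 3) / ((p : ℝ) - 1) ^ 3)) atTop (nhds D) ∧
    ∀ M N : ℕ, 2 ≤ N →
      (((Ioc M (M + N)).filter (fun p => p.Prime ∧ (p + 2).Prime ∧ (p + 6).Prime)).card : ℝ)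
        < 48 * D * N / (Real.log N) ^ 3 ∧
      (((Ioc M (M + N)).filter (fun p => p.Prime ∧ (p + 4).Prime ∧ (p + 6).Prime)).card : ℝ)
        < 48 * D * N / (Real.log N) ^ 3 := by
  obtain ⟨D, hD, hD2⟩ := Pool.Agent.Helper25.exists_D
  refine ⟨D, hD, ?_⟩
  intro M N hN
  rcases lt_or_ge (Real.log N) 20 with h | h
  · exact ⟨Pool.Agent.Helper25.small hD2 (Or.inl rfl) M hN h,
      Pool.Agent.Helper25.small hD2 (Or.inr rfl) M hN h⟩
  · exact ⟨Pool.Agent.Helper25.large hD hD2 (Or.inl rfl) M h,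
      Pool.Agent.Helper25.large hD hD2 (Or.inr rfl) M h⟩

end Pool.Agent.Results.MP_c0d11e_nt.ShortIntervals
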